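import Pool.Agent.H65.HW.Tools
import Pool.Graph.R_pool_sql_team_seeded_63374d34.N645.TB_KON

/-!
# Project HW, parts KOE and DEC (helper33)
-/

set_option autoImplicit false
open Classical Finset

namespace Pool.Agent.H33.HW

open Pool.Agent.H21.HV Pool.Agent.H65.HW

/-- KOE -/
theorem t_KOE : S_KOE := by
  intro V _ Γ P Q N hB hN
  obtain ⟨hPQ, hE⟩ := hB
  have hPQ' : ∀ v, v ∈ P → v ∈ Q → False := fun v h1 h2 => (Finset.disjoint_left.1 hPQ) h1 h2
  let U : Type := {e : V × V // Γ.Adj e.1 e.2 ∧ e.1 ∈ P ∧ e.2 ∈ Q}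
  obtain ⟨i, hi1, hi2⟩ := Pool.Agent.N645.TBKON.kon (U := U) (A := V) (B := V)
    (fun e => e.1.1) (fun e => e.1.2) N
    (fun x => by
      refine le_trans ?_ (hN x)
      unfold nb
      apply Finset.card_le_card_of_injOn (fun e : U => e.1.2)
      · intro e he
        simp only [coe_filter, mem_univ, true_and, Set.mem_ofPred_eq] at he ⊢
        rw [← he]
        exact e.2.1
      · intro e he e' he' h
        simp only [coe_filter, mem_univ, true_and, Set.mem_ofPred_eq] at he he'
        exact Subtype.ext (Prod.ext (he.trans he'.symm) h))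
    (fun x => by
      refine le_trans ?_ (hN x)
      unfold nb
      apply Finset.card_le_card_of_injOn (fun e : U => e.1.1)
      · intro e he
        simp only [coe_filter, mem_univ, true_and, Set.mem_ofPred_eq] at he ⊢
        rw [← he]
        exact e.2.1.symm
      · intro e he e' he' h
        simp only [coe_filter, mem_univ, true_and, Set.mem_ofPred_eq] at he he'
        exact Subtype.ext (Prod.ext h (he.trans he'.symm)))
  let c : V → V → ℕ := fun u v =>
    if h : Γ.Adj u v ∧ u ∈ P ∧ v ∈ Q then (i ⟨(u, v), h⟩ : ℕ)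
    else if h : Γ.Adj v u ∧ v ∈ P ∧ u ∈ Q then (i ⟨(v, u), h⟩ : ℕ) else 0
  have c1 : ∀ u v (h : Γ.Adj u v ∧ u ∈ P ∧ v ∈ Q), c u v = (i ⟨(u, v), h⟩ : ℕ) := by
    intro u v h
    simp only [c]
    rw [dif_pos h]
  have c2 : ∀ u v (h : Γ.Adj v u ∧ v ∈ P ∧ u ∈ Q), c u v = (i ⟨(v, u), h⟩ : ℕ) := by
    intro u v h
    simp only [c]
    rw [dif_neg (fun h' => hPQ' u h'.2.1 h.2.2), dif_pos h]
  refine ⟨c, ?_, ?_, ?_⟩
  · intro u v
    by_cases h : Γ.Adj u v ∧ u ∈ P ∧ v ∈ Q
    · rw [c1 u v h, c2 v u h]
    · by_cases h' : Γ.Adj v u ∧ v ∈ P ∧ u ∈ Q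
      · rw [c2 u v h', c1 v u h']
      · simp only [c]
        rw [dif_neg h, dif_neg h', dif_neg h', dif_neg h]
  · intro u v huv
    rcases hE u v huv with h | h
    · rw [c1 u v ⟨huv, h⟩]; exact (i _).2
    · rw [c2 u v ⟨huv.symm, h.2, h.1⟩]; exact (i _).2
  · intro u v w huv huw hvw
    rcases hE u v huv with h | h
    · rcases hE u w huw with h' | h'
      · rw [c1 u v ⟨huv, h⟩, c1 u w ⟨huw, h'⟩]
        intro he
        refine hi1 ⟨(u, v), ⟨huv, h⟩⟩ ⟨(u, w), ⟨huw, h'⟩⟩ ?_ rfl (Fin.ext he)
        intro e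
        exact hvw (Prod.mk.inj (Subtype.mk.inj e)).2
      · exact (hPQ' u h.1 h'.1).elim
    · rcases hE u w huw with h' | h'
      · exact (hPQ' u h'.1 h.1).elim
      · rw [c2 u v ⟨huv.symm, h.2, h.1⟩, c2 u w ⟨huw.symm, h'.2, h'.1⟩]
        intro he
        refine hi2 ⟨(v, u), ⟨huv.symm, h.2, h.1⟩⟩ ⟨(w, u), ⟨huw.symm, h'.2, h'.1⟩⟩ ?_ rfl
          (Fin.ext he)
        intro e
        exact hvw (Prod.mk.inj (Subtype.mk.inj e)).1

/-- DEC -/
theorem t_DEC : S_DEC := by
  intro A B _ _ k t hrow hcol
  let U : Type := Σ p : A × B, Fin (k p.1 p.2)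
  have hcard : ∀ (S : A × B → Prop), (univ.filter (fun u : U => S u.1)).card =
      ∑ p : A × B, if S p then k p.1 p.2 else 0 := by
    intro S
    rw [Finset.card_filter, Fintype.sum_sigma]
    apply Finset.sum_congr rfl
    intro p _
    by_cases h : S p
    · simp [h]
    · simp [h]
  have hA : ∀ x, (univ.filter (fun u : U => u.1.1 = x)).card = t := by
    intro x
    rw [hcard (fun p => p.1 = x), Fintype.sum_prod_type, ← hrow x]
    rw [Finset.sum_eq_single x]
    · simp
    · intro y _ hy
      simp [hy]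
    · intro h
      exact absurd (mem_univ x) h
  have hB : ∀ y, (univ.filter (fun u : U => u.1.2 = y)).card ≤ t := by
    intro y
    rw [hcard (fun p => p.2 = y), Fintype.sum_prod_type]
    refine le_trans (le_of_eq ?_) (hcol y)
    apply Finset.sum_congr rfl
    intro x _
    rw [Finset.sum_eq_single y]
    · simp
    · intro z _ hz
      simp [hz]
    · intro h
      exact absurd (mem_univ y) h
  obtain ⟨i, hi1, hi2⟩ := Pool.Agent.N645.TBKON.kon (U := U) (A := A) (B := B)
    (fun u => u.1.1) (fun u => u.1.2) t (fun x => (hA x).le) hB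
  have hex : ∀ (y : Fin t) (a : A), ∃ u : U, u.1.1 = a ∧ i u = y := by
    intro y a
    have h1 : (univ.filter (fun u : U => u.1.1 = a)).image i = univ := by
      apply Finset.eq_univ_of_card
      rw [Finset.card_image_of_injOn, hA a, Fintype.card_fin]
      intro u hu v hv h
      simp only [coe_filter, mem_univ, true_and, Set.mem_ofPred_eq] at hu hv
      by_contra hne
      exact hi1 u v hne (hu.trans hv.symm) h
    have h2 : y ∈ (univ.filter (fun u : U => u.1.1 = a)).image i := by
      rw [h1]; exact mem_univ y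
    obtain ⟨u, hu, huy⟩ := mem_image.1 h2
    exact ⟨u, (mem_filter.1 hu).2, huy⟩
  choose e he1 he2 using hex
  have huniq : ∀ (y : Fin t) (a : A) (u : U), u.1.1 = a → i u = y → u = e y a := by
    intro y a u h1 h2
    by_contra hne
    exact hi1 u (e y a) hne (h1.trans (he1 y a).symm) (h2.trans (he2 y a).symm)
  refine ⟨fun y a => (e y a).1.2, ?_, ?_⟩
  · intro y a a' h
    have h1 : e y a = e y a' := by
      by_contra hne
      exact hi2 _ _ hne h ((he2 y a).trans (he2 y a').symm)
    rw [← he1 y a, ← he1 y a', h1]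
  · intro a b
    have h1 : k a b = (univ.filter (fun u : U => u.1 = (a, b))).card := by
      refine Eq.trans ?_ (Eq.trans (hcard (fun p => p = (a, b))).symm ?_)
      · rw [Finset.sum_eq_single (a, b)]
        · simp
        · intro p _ hp
          simp [hp]
        · intro h
          exact absurd (mem_univ _) h
      · congr 1
        ext u
        simp
    rw [h1]
    apply Finset.card_bij' (fun y _ => e y a) (fun u _ => i u)
    · intro y hy
      simp only [mem_filter, mem_univ, true_and] at hy ⊢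
      exact Prod.ext (he1 y a) hy
    · intro u hu
      simp only [mem_filter, mem_univ, true_and] at hu ⊢
      rw [← huniq (i u) a u (by rw [hu]) rfl, hu]
    · intro y _
      exact he2 y a
    · intro u hu
      simp only [mem_filter, mem_univ, true_and] at hu
      exact (huniq (i u) a u (by rw [hu]) rfl).symm

end Pool.Agent.H33.HW
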