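import Pool.Agent.H65.HW.Tools

/-!
# Project HW, part REG (helper33)
-/

set_option autoImplicit false
open Classical Finset

namespace Pool.Agent.H33.HW

open Pool.Agent.H21.HV Pool.Agent.H65.HW

/-- two copies joined by a matching of the deficient vertices -/
def dbl {V : Type} (G : SimpleGraph V) (S : V → Prop) : SimpleGraph (V × Bool) where
  Adj x y := (x.2 = y.2 ∧ G.Adj x.1 y.1) ∨ (x.2 ≠ y.2 ∧ x.1 = y.1 ∧ S x.1)
  symm := ⟨by
    intro x y h
    rcases h with ⟨h1, h2⟩ | ⟨h1, h2, h3⟩
    · exact Or.inl ⟨h1.symm, h2.symm⟩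
    · exact Or.inr ⟨h1.symm, h2.symm, h2 ▸ h3⟩⟩
  loopless := ⟨by
    intro x h
    rcases h with ⟨_, h2⟩ | ⟨h1, _⟩
    · exact G.loopless.irrefl _ h2
    · exact h1 rfl⟩

theorem nb_dbl {V : Type} [Fintype V] (G : SimpleGraph V) (S : V → Prop) (x : V × Bool) :
    nb (dbl G S) univ x = nb G univ x.1 + (if S x.1 then 1 else 0) := by
  obtain ⟨v, b⟩ := x
  have h1 : (univ.filter (fun u => (dbl G S).Adj (v, b) u)) =
      ((univ.filter (fun u => G.Adj v u)).image (fun u => (u, b))) ∪
        (if S v then {(v, !b)} else ∅) := by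
    ext ⟨u, c⟩
    simp only [mem_filter, mem_univ, true_and, mem_union, mem_image, Prod.mk.injEq]
    constructor
    · rintro (⟨h1, h2⟩ | ⟨h1, h2, h3⟩)
      · left
        exact ⟨u, h2, rfl, h1⟩
      · right
        simp only at h1 h2 h3
        rw [if_pos h3, mem_singleton, Prod.mk.injEq]
        refine ⟨h2.symm, ?_⟩
        cases b <;> cases c <;> simp_all
    · rintro (⟨w, h1, h2, h3⟩ | h)
      · left
        exact ⟨h3, h2 ▸ h1⟩
      · right
        by_cases hs : S v
        · rw [if_pos hs, mem_singleton, Prod.mk.injEq] at h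
          refine ⟨?_, h.1.symm, hs⟩
          rw [h.2]
          cases b <;> simp
        · rw [if_neg hs] at h
          simp at h
  have h2 : Disjoint ((univ.filter (fun u => G.Adj v u)).image (fun u => (u, b)))
        (if S v then ({(v, !b)} : Finset (V × Bool)) else ∅) := by
    rw [Finset.disjoint_left]
    rintro ⟨u, c⟩ h3 h4
    simp only [mem_image, mem_filter, mem_univ, true_and, Prod.mk.injEq] at h3
    obtain ⟨w, _, _, h5⟩ := h3
    by_cases hs : S v
    · rw [if_pos hs, mem_singleton, Prod.mk.injEq] at h4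
      rw [h4.2] at h5
      cases b <;> simp at h5
    · rw [if_neg hs] at h4
      simp at h4
  unfold nb
  rw [h1, card_union_of_disjoint h2, card_image_of_injective _ (fun u w h => (Prod.mk.inj h).1)]
  congr 1
  by_cases hs : S v
  · simp [hs]
  · simp [hs]

theorem totlab_sub {V W : Type} (G : SimpleGraph V) (H : SimpleGraph W) (φ : V → W)
    (hφ : Function.Injective φ) (h : ∀ u v, G.Adj u v → H.Adj (φ u) (φ v)) (p l : ℕ)
    (hH : TotLab H p l) : TotLab G p l := by
  obtain ⟨fV, fE, h1, h2, h3, h4, h5⟩ := hH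
  refine ⟨fun v => fV (φ v), fun e => fE (e.map φ), fun v => h1 _, ?_, ?_, ?_, ?_⟩
  · intro e he
    induction e with
    | h u v =>
      apply h2
      rw [Sym2.map_mk]
      exact h u v he
  · intro u v huv
    exact h3 _ _ (h _ _ huv)
  · intro u v w huv huw hvw
    simp only [Sym2.map_mk]
    exact h4 _ _ _ (h _ _ huv) (h _ _ huw) (fun e => hvw (hφ e))
  · intro u v huv
    simp only [Sym2.map_mk]
    exact h5 _ _ (h _ _ huv)

theorem reg_ind (D p l : ℕ)
    (H : ∀ (V' : Type) [Fintype V'] (G' : SimpleGraph V'), (∀ v, nb G' univ v = D) →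
      TotLab G' p l) :
    ∀ (n : ℕ) (V : Type) [Fintype V] (G : SimpleGraph V), (∀ v, nb G univ v ≤ D) →
      (∀ v, D ≤ nb G univ v + n) → TotLab G p l := by
  intro n
  induction n with
  | zero =>
    intro V _ G h1 h2
    exact H V G (fun v => le_antisymm (h1 v) (h2 v))
  | succ n ih =>
    intro V _ G h1 h2
    apply totlab_sub G (dbl G (fun v => nb G univ v < D)) (fun v => (v, false))
      (fun u v h => (Prod.mk.inj h).1) (fun u v h => Or.inl ⟨rfl, h⟩)
    apply ih
    · intro v
      rw [nb_dbl]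
      have := h1 v.1
      split_ifs <;> omega
    · intro v
      rw [nb_dbl]
      have := h1 v.1
      have := h2 v.1
      split_ifs <;> omega

/-- REG -/
theorem t_REG : Pool.Agent.H65.HW.S_REG := by
  intro D p l H V _ G hG
  exact reg_ind D p l H D V G hG (fun v => Nat.le_add_left _ _)

end Pool.Agent.H33.HW
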